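import Pool.Agent.Work.MP_ef7f46_tn.Interface

/-!
MP_ef7f46_co, project TN: block DMC (helper26): few batches without dense models.
-/

set_option autoImplicit false
open Classical Finset

noncomputable section

namespace TN

namespace DMC

variable {Q Λ : Type} [Fintype Q] [Fintype Λ] (X : Ctx Q Λ)

/-- signed normalised degree function -/
def Hf (s : Bool) (w : Λ → ℝ) (y : Q) : ℝ := (if s then 1 else -1) * (dg X.inc w y / X.N)

/-- index type -/
abbrev Idx (R : ℕ) : Type := Fin R → Bool × {w // w ∈ X.net}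

/-- test function -/
def ff (R : ℕ) (h : Idx X R) (y : Q) : ℝ :=
  max 0 (∑ r, Hf X (h r).1 (h r).2.1 y) / R

theorem deg01 (h3 : Stmt_LCARD) (hR : Reg X) (w : Λ → ℝ) (hw : U01 w) (y : Q) :
    0 ≤ dg X.inc w y / X.N ∧ dg X.inc w y / X.N ≤ 1 := by
  obtain ⟨-, -, hc, hd⟩ := h3 Q Λ X.inc X.N X.M hR.lin
  have hN : (0 : ℝ) < X.N := by exact_mod_cast hR.lin.Npos
  have h0 := hc w (fun ℓ => (hw ℓ).1) y
  have h1 := hd w 1 (fun ℓ => hw ℓ) y
  exact ⟨div_nonneg h0 hN.le, (div_le_one hN).2 (by linarith)⟩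

theorem Hf_le (h3 : Stmt_LCARD) (hR : Reg X) (s : Bool) (w : Λ → ℝ) (hw : U01 w) (y : Q) :
    Hf X s w y ≤ 1 := by
  obtain ⟨h0, h1⟩ := deg01 X h3 hR w hw y
  unfold Hf
  split_ifs <;> linarith

theorem ff_mem (h3 : Stmt_LCARD) (hR : Reg X) (R : ℕ) (hRp : 0 < R) (h : Idx X R) (y : Q) :
    0 ≤ ff X R h y ∧ ff X R h y ≤ 1 := by
  have hRr : (0 : ℝ) < R := by exact_mod_cast hRp
  unfold ff
  refine ⟨div_nonneg (le_max_left _ _) hRr.le, ?_⟩
  rw [div_le_one hRr]
  refine max_le hRr.le ?_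
  calc ∑ r, Hf X (h r).1 (h r).2.1 y ≤ ∑ _r : Fin R, (1 : ℝ) :=
        sum_le_sum fun r _ => Hf_le X h3 hR _ _ (hR.net01 _ (h r).2.2) y
    _ = R := by simp

end DMC

theorem dmc_ok (h1 : Stmt_DMA) (h2 : Stmt_HOE) (h3 : Stmt_LCARD) : Stmt_DMC := by
  intro Q Λ _ _ X hR R heps hRe
  have hN : (0 : ℝ) < X.N := by exact_mod_cast hR.lin.Npos
  have hM : (0 : ℝ) < X.M := by exact_mod_cast hR.lin.Mpos
  have hb : (0 : ℝ) < X.b := by exact_mod_cast hR.bpos
  have he : 0 < X.eps := hR.epspos
  have hQ : (Fintype.card Q : ℝ) = qq X := by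
    unfold qq
    rw [hR.lin.cardQ]
    push_cast
    ring
  have hq : 0 < qq X := by unfold qq; positivity
  have hRr : (0 : ℝ) < R := lt_of_lt_of_le (by positivity) hRe
  have hRp : 0 < R := by exact_mod_cast hRr
  have : Nonempty Q := by
    rw [← Fintype.card_pos_iff, hR.lin.cardQ]
    exact Nat.mul_pos hR.lin.Npos hR.lin.Mpos
  -- inclusion of the bad set
  have hsub : (univ.filter (fun β : Fin X.b → Q =>
      ¬ ∀ J : Finset (Fin X.b), ∃ g, IsDM X β J g)) ⊆
      (univ : Finset (DMC.Idx X R)).biUnion (fun h => univ.filter (fun β : Fin X.b → Q =>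
        (∑ y, DMC.ff X R h y) / (Fintype.card Q : ℝ) + X.eps / 2 <
          (∑ j, DMC.ff X R h (β j)) / X.b)) := by
    intro β hβ
    rw [mem_filter] at hβ
    by_contra hcon
    apply hβ.2
    have hcon' : ∀ h : DMC.Idx X R, (∑ j, DMC.ff X R h (β j)) / X.b ≤
        (∑ y, DMC.ff X R h y) / (Fintype.card Q : ℝ) + X.eps / 2 := by
      intro h
      by_contra hh
      apply hcon
      rw [mem_biUnion]
      refine ⟨h, mem_univ _, ?_⟩
      rw [mem_filter]
      exact ⟨mem_univ _, not_le.1 hh⟩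
    intro J
    have key := h1 Q X.b β (X.net.image (fun w y => dg X.inc w y / X.N)) X.eps R hR.bpos
      (by
        intro f hf y
        rw [mem_image] at hf
        obtain ⟨w, hw, rfl⟩ := hf
        exact DMC.deg01 X h3 hR w (hR.net01 w hw) y) he hRe
      (by
        intro H hH
        have hex : ∀ r, ∃ a : Bool × {w // w ∈ X.net}, ∀ y, H r y = DMC.Hf X a.1 a.2.1 y := by
          intro r
          rcases hH r with h | h
          · rw [mem_image] at h
            obtain ⟨w, hw, hwe⟩ := h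
            refine ⟨(true, ⟨w, hw⟩), fun y => ?_⟩
            rw [← hwe]
            simp [DMC.Hf]
          · rw [mem_image] at h
            obtain ⟨w, hw, hwe⟩ := h
            refine ⟨(false, ⟨w, hw⟩), fun y => ?_⟩
            have h5 : dg X.inc w y / X.N = - H r y := congrFun hwe y
            simp only [DMC.Hf, h5]
            simp
        choose h hh using hex
        have hsum : ∀ y, max 0 (∑ r, H r y) = R * DMC.ff X R h y := by
          intro y
          unfold DMC.ff
          rw [mul_div_cancel₀ _ hRr.ne']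
          congr 1
          exact sum_congr rfl fun r _ => hh r y
        have h6 := hcon' h
        calc (∑ j, max 0 (∑ r, H r (β j))) / (X.b : ℝ)
            = R * ((∑ j, DMC.ff X R h (β j)) / X.b) := by
              rw [sum_congr rfl fun j _ => hsum (β j), ← mul_sum, mul_div_assoc]
          _ ≤ R * ((∑ y, DMC.ff X R h y) / (Fintype.card Q : ℝ) + X.eps / 2) :=
              mul_le_mul_of_nonneg_left h6 hRr.le
          _ = (∑ y, max 0 (∑ r, H r y)) / (Fintype.card Q : ℝ) + R * X.eps / 2 := by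
              rw [sum_congr rfl fun y _ => hsum y, ← mul_sum]
              ring) J
    obtain ⟨g, hg, hgf⟩ := key
    refine ⟨g, hg, fun w hw => ?_⟩
    have h7 := hgf (fun y => dg X.inc w y / X.N) (mem_image_of_mem _ hw)
    have h8 : (∑ j ∈ J, dg X.inc w (β j)) - (X.b / qq X) * ∑ y, g y * dg X.inc w y =
        (X.b * X.N) * ((∑ j ∈ J, dg X.inc w (β j) / X.N) / X.b -
          (∑ y, g y * (dg X.inc w y / X.N)) / (Fintype.card Q : ℝ)) := by
      rw [hQ]
      have e1 : ∑ j ∈ J, dg X.inc w (β j) / X.N = (∑ j ∈ J, dg X.inc w (β j)) / X.N := by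
        rw [sum_div]
      have e2 : ∑ y, g y * (dg X.inc w y / X.N) = (∑ y, g y * dg X.inc w y) / X.N := by
        rw [sum_div]
        exact sum_congr rfl fun y _ => by ring
      rw [e1, e2]
      field_simp
    rw [h8, abs_mul, abs_of_pos (by positivity)]
    calc (X.b : ℝ) * X.N * |(∑ j ∈ J, dg X.inc w (β j) / X.N) / X.b -
          (∑ y, g y * (dg X.inc w y / X.N)) / (Fintype.card Q : ℝ)|
        ≤ X.b * X.N * X.eps := mul_le_mul_of_nonneg_left h7 (by positivity)
      _ = X.eps * X.N * X.b := by ring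
  have hcard : (Fintype.card (DMC.Idx X R) : ℝ) = (2 * (X.net.card : ℝ)) ^ R := by
    rw [Fintype.card_fun]
    simp
  calc ((univ.filter (fun β : Fin X.b → Q =>
      ¬ ∀ J : Finset (Fin X.b), ∃ g, IsDM X β J g)).card : ℝ)
      ≤ ((univ : Finset (DMC.Idx X R)).biUnion (fun h => univ.filter (fun β : Fin X.b → Q =>
        (∑ y, DMC.ff X R h y) / (Fintype.card Q : ℝ) + X.eps / 2 <
          (∑ j, DMC.ff X R h (β j)) / X.b))).card := by exact_mod_cast card_le_card hsub
    _ ≤ ∑ h : DMC.Idx X R, ((univ.filter (fun β : Fin X.b → Q =>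
        (∑ y, DMC.ff X R h y) / (Fintype.card Q : ℝ) + X.eps / 2 <
          (∑ j, DMC.ff X R h (β j)) / X.b)).card : ℝ) := by
        exact_mod_cast card_biUnion_le
    _ ≤ ∑ _h : DMC.Idx X R, Real.exp (-(X.b * X.eps ^ 2 / 16)) * qq X ^ X.b := by
        refine sum_le_sum fun h _ => ?_
        have := h2 Q X.b (DMC.ff X R h) X.eps hR.bpos (DMC.ff_mem X h3 hR R hRp h) he heps
        rw [hQ] at this
        rw [hQ]
        exact this
    _ = (2 * (X.net.card : ℝ)) ^ R * Real.exp (-(X.b * X.eps ^ 2 / 16)) * qq X ^ X.b := by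
        rw [sum_const, card_univ, nsmul_eq_mul, hcard]
        ring

end TN
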