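import Pool.Agent.Work.MP_ef7f46_tn.Interface

/-!
MP_ef7f46_co, project TN: block STB (helper26): bounds for intensities, states and test weights.
-/

set_option autoImplicit false
open Classical Finset

noncomputable section

namespace TN

namespace STB

variable {Q Λ : Type} [Fintype Q] [Fintype Λ] (X : Ctx Q Λ)

theorem dm_mem (β : Fin X.b → Q) (J : Finset (Fin X.b)) (y : Q) :
    0 ≤ dm X β J y ∧ dm X β J y ≤ 1 := by
  unfold dm
  split_ifs with h
  · exact h.choose_spec.1 y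
  · simp

theorem hh_mem (hR : Reg X) (β : Fin X.b → Q) (J : Finset (Fin X.b)) (ℓ : Λ) :
    0 ≤ hh X β J ℓ ∧ hh X β J ℓ ≤ X.lam / X.m := by
  have hN : (0 : ℝ) < X.N := by exact_mod_cast hR.lin.Npos
  have hM : (0 : ℝ) < X.M := by exact_mod_cast hR.lin.Mpos
  have hm : (0 : ℝ) < X.m := by exact_mod_cast hR.mpos
  have hb : (0 : ℝ) < X.b := by exact_mod_cast hR.bpos
  have hq : (0 : ℝ) < qq X := by unfold qq; positivity
  have hs0 : 0 ≤ ∑ y ∈ X.inc ℓ, dm X β J y := sum_nonneg fun y _ => (dm_mem X β J y).1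
  have hs1 : ∑ y ∈ X.inc ℓ, dm X β J y ≤ X.N := by
    calc ∑ y ∈ X.inc ℓ, dm X β J y ≤ ∑ _y ∈ X.inc ℓ, (1 : ℝ) :=
          sum_le_sum fun y _ => (dm_mem X β J y).2
      _ = X.N := by simp [hR.lin.line ℓ]
  have hc : 0 ≤ (X.b : ℝ) / qq X := by positivity
  refine ⟨mul_nonneg hc hs0, ?_⟩
  have hmb : (X.m : ℝ) * X.b = X.lam * X.M := by exact_mod_cast hR.mb
  calc hh X β J ℓ ≤ (X.b : ℝ) / qq X * X.N := mul_le_mul_of_nonneg_left hs1 hc
    _ = X.lam / X.m := by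
        unfold qq
        rw [div_mul_eq_mul_div, div_eq_div_iff (by positivity) (by positivity)]
        linear_combination (X.N : ℝ) * hmb

theorem st_bd (hR : Reg X) (z : Pos X → Q) (I : Finset (Pos X)) (ℓ : Λ) (i : ℕ) :
    0 ≤ (st X z I i).W ℓ ∧ (st X z I i).W ℓ ≤ Real.exp ((st X z I i).s ℓ) ∧
      0 ≤ (st X z I i).s ℓ ∧ (st X z I i).s ℓ ≤ (min i X.m : ℕ) * (X.lam / X.m) := by
  induction i with
  | zero => simp [st]
  | succ i ih =>
    obtain ⟨h0, h1, h2, h3⟩ := ih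
    by_cases hi : i < X.m
    · have he : st X z I (i + 1) =
          step X (st X z I i) (fun j => z (⟨i, hi⟩, j)) (sl X I ⟨i, hi⟩) := by
        simp [st, hi]
      rw [he]
      set β : Fin X.b → Q := fun j => z (⟨i, hi⟩, j)
      set K := sl X I ⟨i, hi⟩
      set S := st X z I i
      obtain ⟨g0, g1⟩ := hh_mem X hR β (Fs X S β K) ℓ
      have hW : (step X S β K).W ℓ = if ∃ j ∈ K, β j ∈ X.inc ℓ then 0
        else S.W ℓ * (1 + hh X β (Fs X S β K) ℓ) := rfl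
      have hs : (step X S β K).s ℓ = S.s ℓ + hh X β (Fs X S β K) ℓ := rfl
      rw [hW, hs]
      have hmin : ((min (i + 1) X.m : ℕ) : ℝ) = (min i X.m : ℕ) + 1 := by
        rw [min_eq_left (by omega), min_eq_left (by omega)]
        push_cast
        ring
      refine ⟨?_, ?_, by linarith, ?_⟩
      · split_ifs
        · exact le_rfl
        · exact mul_nonneg h0 (by linarith)
      · split_ifs
        · exact (Real.exp_pos _).le
        · rw [Real.exp_add]
          have := Real.add_one_le_exp (hh X β (Fs X S β K) ℓ)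
          exact mul_le_mul h1 (by linarith) (by linarith) (Real.exp_pos _).le
      · rw [hmin, add_mul, one_mul]
        linarith
    · have he : st X z I (i + 1) = st X z I i := by simp [st, hi]
      rw [he]
      have : min (i + 1) X.m = min i X.m := by
        rw [min_eq_right (by omega), min_eq_right (by omega)]
      rw [this]
      exact ⟨h0, h1, h2, h3⟩

theorem st_all (hR : Reg X) (z : Pos X → Q) (I : Finset (Pos X)) (i : ℕ) (ℓ : Λ) :
    0 ≤ (st X z I i).W ℓ ∧ (st X z I i).W ℓ ≤ Real.exp ((st X z I i).s ℓ) ∧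
      0 ≤ (st X z I i).s ℓ ∧ (st X z I i).s ℓ ≤ X.lam ∧
      (st X z I i).W ℓ ≤ Real.exp X.lam := by
  obtain ⟨h0, h1, h2, h3⟩ := st_bd X hR z I ℓ i
  have hm : (0 : ℝ) < X.m := by exact_mod_cast hR.mpos
  have hle : (st X z I i).s ℓ ≤ X.lam := by
    refine h3.trans ?_
    have h4 : ((min i X.m : ℕ) : ℝ) ≤ X.m := by exact_mod_cast min_le_right i X.m
    calc ((min i X.m : ℕ) : ℝ) * (X.lam / X.m) ≤ X.m * (X.lam / X.m) :=
          mul_le_mul_of_nonneg_right h4 (by positivity)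
      _ = X.lam := by field_simp
  exact ⟨h0, h1, h2, hle, h1.trans (Real.exp_le_exp.2 hle)⟩

theorem phi_mem (h1 : Stmt_PSI) (hR : Reg X) (W : Λ → ℝ) (ℓ : Λ) :
    0 ≤ phi X W ℓ ∧ phi X W ℓ ≤ 1 := by
  have hN : (0 : ℝ) < X.N := by exact_mod_cast hR.lin.Npos
  have hp : ∀ a : ℝ, 0 ≤ psi' a ∧ psi' a ≤ 1 := fun a => ⟨(h1 a a).2.2.2.2.1, (h1 a a).2.2.2.2.2⟩
  unfold phi
  refine ⟨div_nonneg (sum_nonneg fun y _ => (hp _).1) hN.le, ?_⟩
  rw [div_le_one hN]
  calc ∑ y ∈ X.inc ℓ, psi' (G X W y) ≤ ∑ _y ∈ X.inc ℓ, (1 : ℝ) :=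
        sum_le_sum fun y _ => (hp _).2
    _ = X.N := by simp [hR.lin.line ℓ]

end STB

theorem stb_ok (h1 : Stmt_PSI) : Stmt_STB := by
  intro Q Λ _ _ X hR
  have hC : (1 : ℝ) ≤ X.C := hR.Cpos
  refine ⟨fun β J ℓ => STB.hh_mem X hR β J ℓ, fun z I i ℓ => STB.st_all X hR z I i ℓ, ?_, ?_⟩
  · intro S hS
    refine ⟨fun ℓ => ?_, fun ℓ => STB.phi_mem X h1 hR S.W ℓ⟩
    obtain ⟨p0, p1⟩ := STB.phi_mem X h1 hR S.W ℓ
    obtain ⟨w0, w1, s0, s1⟩ := hS ℓ
    have hRc : 0 < Rc X := by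
      unfold Rc
      have : (0 : ℝ) ≤ X.lam := Nat.cast_nonneg _
      have := Real.exp_pos (X.lam : ℝ)
      positivity
    have hc0 : 0 ≤ X.C * phi X S.W ℓ := mul_nonneg (by linarith) p0
    have hc1 : X.C * phi X S.W ℓ ≤ X.C := by
      calc X.C * phi X S.W ℓ ≤ X.C * 1 := mul_le_mul_of_nonneg_left p1 (by linarith)
        _ = X.C := mul_one _
    refine ⟨div_nonneg (mul_nonneg (by linarith) w0) hRc.le, ?_⟩
    show wc X S ℓ / Rc X ≤ 1
    rw [div_le_one hRc]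
    unfold wc Rc
    exact mul_le_mul (by linarith) w1 w0 (by linarith)
  · intro z I J i ℓ
    obtain ⟨h0, -, -, -, h4⟩ := STB.st_all X hR z I i ℓ
    have he := Real.exp_pos (X.lam : ℝ)
    show 0 ≤ w3 X z I J i ℓ ∧ w3 X z I J i ℓ ≤ 1
    unfold w3 vJ
    split_ifs
    · simp
    · rw [one_mul]
      exact ⟨div_nonneg h0 he.le, (div_le_one he).2 h4⟩

end TN
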